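import Mathlib

namespace Pool.Agent.TH732.FI

noncomputable section

section gen
variable {R S : Type*} [CommRing R] [CommRing S]

def mA (q : Fin 12 × Fin 8 → R) : Matrix (Fin 8) (Fin 8) R :=
  Matrix.of fun i j => q (Fin.castLE (by norm_num) j, i)

def va (q : Fin 12 × Fin 8 → R) : Fin 8 → R :=
  (mA q).adjugate.mulVec (fun i => q (8, i))

def vb (q : Fin 12 × Fin 8 → R) : Fin 8 → R :=
  (mA q).adjugate.mulVec (fun i => q (9, i))

def PP (q : Fin 12 × Fin 8 → R) : R :=
  (mA q).det * (∏ i, va q i) * (∏ i, vb q i) * (∏ i, (va q i - vb q i)) *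
    ∏ x ∈ (Finset.univ : Finset (Fin 8)).offDiag, (va q x.1 * vb q x.2 - va q x.2 * vb q x.1)

theorem mA_map (f : R →+* S) (q : Fin 12 × Fin 8 → R) : mA (fun x => f (q x)) = f.mapMatrix (mA q) := rfl

theorem va_map (f : R →+* S) (q : Fin 12 × Fin 8 → R) (i : Fin 8) :
    va (fun x => f (q x)) i = f (va q i) := by
  unfold va
  rw [mA_map, ← RingHom.map_adjugate, RingHom.map_mulVec]
  rfl

theorem vb_map (f : R →+* S) (q : Fin 12 × Fin 8 → R) (i : Fin 8) :
    vb (fun x => f (q x)) i = f (vb q i) := by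
  unfold vb
  rw [mA_map, ← RingHom.map_adjugate, RingHom.map_mulVec]
  rfl

theorem PP_map (f : R →+* S) (q : Fin 12 × Fin 8 → R) :
    PP (fun x => f (q x)) = f (PP q) := by
  unfold PP
  simp only [va_map, vb_map, map_mul, map_prod, map_sub, mA_map, RingHom.map_det]

end gen

def qs : Fin 12 × Fin 8 → ℂ := fun x =>
  if x.1.val < 8 then (if x.1.val = x.2.val then 1 else 0)
  else if x.1.val = 8 then 1 else ((x.2.val : ℂ) + 2)

theorem mA_qs : mA qs = 1 := by
  ext i j
  simp only [mA, qs, Matrix.of_apply, Fin.val_castLE, Fin.is_lt, if_true, Matrix.one_apply]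
  by_cases h : i = j
  · simp [h]
  · rw [if_neg h, if_neg]
    intro h2; exact h (Fin.ext h2.symm)

theorem va_qs (i : Fin 8) : va qs i = 1 := by
  unfold va
  rw [mA_qs]
  simp [qs]

theorem vb_qs (i : Fin 8) : vb qs i = (i.val : ℂ) + 2 := by
  unfold vb
  rw [mA_qs]
  simp [qs]

theorem PP_qs : PP qs ≠ 0 := by
  unfold PP
  simp only [mA_qs, va_qs, vb_qs, Matrix.det_one, one_mul, Finset.prod_const_one, mul_ne_zero_iff,
    Finset.prod_ne_zero_iff]
  refine ⟨⟨?_, ?_⟩, ?_⟩
  · intro i _
    have : ((i.val : ℂ) + 2) = ((i.val + 2 : ℕ) : ℂ) := by push_cast; ring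
    rw [this]; exact Nat.cast_ne_zero.mpr (by omega)
  · intro i _
    have : (1 - ((i.val : ℂ) + 2)) = -((i.val + 1 : ℕ) : ℂ) := by push_cast; ring
    rw [this, neg_ne_zero]; exact Nat.cast_ne_zero.mpr (by omega)
  · rintro ⟨i, j⟩ hx
    rw [Finset.mem_offDiag] at hx
    intro h
    apply hx.2.2
    have h2 : (j.val : ℂ) = (i.val : ℂ) := by
      simp only at h
      linear_combination h
    exact (Fin.ext (by exact_mod_cast h2)).symm

/-- Curve data for twelve vectors. -/
def CurveData (p : Fin 12 → Fin 8 → ℂ) : Prop :=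
  ∃ (Cv : Fin 8 → Polynomial ℂ) (u c : Fin 10 → ℂ), Function.Injective u ∧ (∀ j, c j ≠ 0) ∧
    (∀ i, (Cv i).degree < 8) ∧
    (∀ j : Fin 10, ∀ i, (Cv i).eval (u j) = c j * p (Fin.castLE (by norm_num) j) i) ∧
    (∀ g : Fin 8 → ℂ, ∃ h : Fin 8 → ℂ, ∀ j : Fin 8,
      ∑ i, h i * p (Fin.castLE (by norm_num) j) i = g j)

theorem curve (q : Fin 12 × Fin 8 → ℂ) (hq : PP q ≠ 0) : CurveData (fun j i => q (j, i)) := by
  unfold PP at hq
  simp only [mul_ne_zero_iff, Finset.prod_ne_zero_iff] at hq
  obtain ⟨⟨⟨⟨hdet, ha⟩, hb⟩, hab⟩, hd⟩ := hq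
  have ha : ∀ i, va q i ≠ 0 := fun i => ha i (Finset.mem_univ i)
  have hb : ∀ i, vb q i ≠ 0 := fun i => hb i (Finset.mem_univ i)
  have hab : ∀ i, va q i - vb q i ≠ 0 := fun i => hab i (Finset.mem_univ i)
  have hd : ∀ i j, i ≠ j → va q i * vb q j - va q j * vb q i ≠ 0 := fun i j hij =>
    hd (i, j) (by simp [hij])
  have hba : ∀ i, vb q i - va q i ≠ 0 := fun i => by
    rw [← neg_sub, neg_ne_zero]; exact hab i
  have hA : ∀ i, ∑ j : Fin 8, q (Fin.castLE (by norm_num) j, i) * va q j = (mA q).det * q (8, i) := by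
    intro i
    have h1 : (mA q).mulVec (va q) = (mA q).det • (fun i => q (8, i)) := by
      unfold va
      rw [Matrix.mulVec_mulVec, Matrix.mul_adjugate, Matrix.smul_mulVec, Matrix.one_mulVec]
    exact congrFun h1 i
  have hB : ∀ i, ∑ j : Fin 8, q (Fin.castLE (by norm_num) j, i) * vb q j = (mA q).det * q (9, i) := by
    intro i
    have h1 : (mA q).mulVec (vb q) = (mA q).det • (fun i => q (9, i)) := by
      unfold vb
      rw [Matrix.mulVec_mulVec, Matrix.mul_adjugate, Matrix.smul_mulVec, Matrix.one_mulVec]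
    exact congrFun h1 i
  -- the nodes
  set s : Fin 8 → ℂ := fun i => vb q i / (vb q i - va q i) with hs
  have hs0 : ∀ i, s i ≠ 0 := fun i => div_ne_zero (hb i) (hba i)
  have hs1' : ∀ i, 1 - s i = - va q i / (vb q i - va q i) := by
    intro i
    have := hba i
    simp only [hs]
    field_simp
    ring
  have hs1 : ∀ i, 1 - s i ≠ 0 := fun i => by
    rw [hs1']; exact div_ne_zero (neg_ne_zero.mpr (ha i)) (hba i)
  have hsinj : ∀ i j, i ≠ j → s i ≠ s j := by
    intro i j hij h
    simp only [hs] at h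
    rw [div_eq_div_iff (hba i) (hba j)] at h
    exact hd i j hij (by linear_combination h)
  let Cv : Fin 8 → Polynomial ℂ := fun i => ∑ j : Fin 8,
    Polynomial.C (s j * va q j * q (Fin.castLE (by norm_num) j, i)) *
      ∏ l ∈ Finset.univ.erase j, (Polynomial.X - Polynomial.C (s l))
  have hev : ∀ i t, (Cv i).eval t = ∑ j : Fin 8, (s j * va q j * q (Fin.castLE (by norm_num) j, i)) *
      ∏ l ∈ Finset.univ.erase j, (t - s l) := by
    intro i t
    simp only [Cv, Polynomial.eval_finsetSum, Polynomial.eval_mul, Polynomial.eval_C,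
      Polynomial.eval_prod, Polynomial.eval_sub, Polynomial.eval_X]
  let u : Fin 10 → ℂ := fun k => if h : k.val < 8 then s ⟨k.val, h⟩ else if k.val = 8 then 0 else 1
  let c : Fin 10 → ℂ := fun k => if h : k.val < 8 then
      s ⟨k.val, h⟩ * va q ⟨k.val, h⟩ * ∏ l ∈ Finset.univ.erase ⟨k.val, h⟩, (s ⟨k.val, h⟩ - s l)
    else if k.val = 8 then - (∏ l, (0 - s l)) * (mA q).det else - (∏ l, (1 - s l)) * (mA q).det
  refine ⟨Cv, u, c, ?_, ?_, ?_, ?_, ?_⟩
  · intro k l hkl
    by_contra hne
    simp only [u] at hkl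
    split_ifs at hkl with h1 h2 h3 h4 h5 h6 h7
    · exact hsinj _ _ (fun h => hne (Fin.ext (by simpa using h))) hkl
    · exact hs0 _ hkl
    · exact hs1 _ (by rw [hkl]; ring)
    · exact hs0 _ hkl.symm
    · exact hne (Fin.ext (by omega))
    · simp at hkl
    · exact hs1 _ (by rw [← hkl]; ring)
    · simp at hkl
    · exact hne (Fin.ext (by omega))
  · intro k
    simp only [c]
    split_ifs with h1 h2
    · refine mul_ne_zero (mul_ne_zero (hs0 _) (ha _)) ?_
      rw [Finset.prod_ne_zero_iff]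
      intro l hl
      rw [Finset.mem_erase] at hl
      exact sub_ne_zero.mpr (hsinj _ _ (Ne.symm hl.1))
    · refine mul_ne_zero (neg_ne_zero.mpr ?_) hdet
      rw [Finset.prod_ne_zero_iff]
      intro l _
      rw [zero_sub, neg_ne_zero]; exact hs0 l
    · refine mul_ne_zero (neg_ne_zero.mpr ?_) hdet
      rw [Finset.prod_ne_zero_iff]
      intro l _
      exact hs1 l
  · intro i
    refine lt_of_le_of_lt (Polynomial.degree_sum_le _ _) ?_
    rw [Finset.sup_lt_iff (by exact WithBot.bot_lt_coe 8)]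
    intro j _
    refine lt_of_le_of_lt (Polynomial.degree_mul_le _ _) ?_
    rw [Polynomial.degree_prod]
    simp only [Polynomial.degree_X_sub_C, Finset.sum_const, Finset.card_erase_of_mem (Finset.mem_univ j),
      Finset.card_univ, Fintype.card_fin]
    refine lt_of_le_of_lt (add_le_add_left Polynomial.degree_C_le _) ?_
    norm_num
  · intro k i
    rw [hev]
    simp only [u, c]
    split_ifs with h1 h2
    · rw [Finset.sum_eq_single (⟨k.val, h1⟩ : Fin 8)]
      · have : (Fin.castLE (by norm_num) (⟨k.val, h1⟩ : Fin 8) : Fin 12) = Fin.castLE (by norm_num) k := rfl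
        rw [this]; ring
      · intro j _ hj
        rw [Finset.prod_eq_zero (i := (⟨k.val, h1⟩ : Fin 8))]
        · simp
        · exact Finset.mem_erase.mpr ⟨Ne.symm hj, Finset.mem_univ _⟩
        · ring
      · intro h; exact absurd (Finset.mem_univ _) h
    · have hk : (Fin.castLE (by norm_num) k : Fin 12) = 8 := by
        apply Fin.ext; simpa using h2
      rw [hk, mul_assoc, ← hA i, Finset.mul_sum]
      apply Finset.sum_congr rfl
      intro j _
      rw [← Finset.mul_prod_erase Finset.univ (fun l => (0 : ℂ) - s l) (Finset.mem_univ j)]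
      ring
    · have hk : (Fin.castLE (by norm_num) k : Fin 12) = 9 := by
        apply Fin.ext
        have := k.isLt
        simp only [Fin.val_castLE]
        show k.val = 9
        omega
      rw [hk, mul_assoc, ← hB i, Finset.mul_sum]
      apply Finset.sum_congr rfl
      intro j _
      rw [← Finset.mul_prod_erase Finset.univ (fun l => (1 : ℂ) - s l) (Finset.mem_univ j)]
      have h3 : s j * va q j = -(1 - s j) * vb q j := by
        rw [hs1']
        simp only [hs]
        have := hba j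
        field_simp
      linear_combination (q (Fin.castLE (by norm_num) j, i) * ∏ l ∈ Finset.univ.erase j, (1 - s l)) * h3
  · intro g
    refine ⟨((mA q).transpose)⁻¹.mulVec g, ?_⟩
    intro j
    have hu : IsUnit ((mA q).transpose).det := by
      rw [Matrix.det_transpose]; exact isUnit_iff_ne_zero.mpr hdet
    have h1 : (mA q).transpose.mulVec (((mA q).transpose)⁻¹.mulVec g) = g := by
      rw [Matrix.mulVec_mulVec, Matrix.mul_nonsing_inv _ hu, Matrix.one_mulVec]
    have h2 := congrFun h1 j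
    rw [Matrix.mulVec, dotProduct] at h2
    rw [← h2]
    apply Finset.sum_congr rfl
    intro i _
    rw [mul_comm]
    rfl

theorem generic_curve : ∃ Δ : MvPolynomial (Fin 12 × Fin 8) ℂ, Δ ≠ 0 ∧
    ∀ q : Fin 12 × Fin 8 → ℂ, MvPolynomial.eval q Δ ≠ 0 → CurveData (fun j i => q (j, i)) := by
  have key : ∀ q : Fin 12 × Fin 8 → ℂ,
      MvPolynomial.eval q (PP (fun x => (MvPolynomial.X x : MvPolynomial (Fin 12 × Fin 8) ℂ))) = PP q := by
    intro q
    rw [← PP_map]
    simp
  refine ⟨PP (fun x => MvPolynomial.X x), ?_, ?_⟩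
  · intro h
    apply PP_qs
    rw [← key, h, map_zero]
  · intro q hq
    rw [key] at hq
    exact curve q hq

end

end Pool.Agent.TH732.FI
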