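import Pool.Agent.TH732.FI.Diff

namespace Pool.Agent.TH732.FI

open MvPolynomial

noncomputable section

theorem leib {N : ℕ} (D : Derivation ℂ (MvPolynomial (Fin N) ℂ) (MvPolynomial (Fin N) ℂ))
    {H P : MvPolynomial (Fin N) ℂ} {c : ℂ} (hH : D H = C c) (n : ℕ) :
    D^[n+1] (H * P) = H * D^[n+1] P + C (((n : ℂ) + 1) * c) * D^[n] P := by
  induction n with
  | zero =>
    simp [Derivation.leibniz, hH]
    ring
  | succ n ih =>
    rw [Function.iterate_succ_apply', ih, map_add, Derivation.leibniz, Derivation.leibniz, hH,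
      MvPolynomial.derivation_C, ← Function.iterate_succ_apply' (f := D) n P,
      ← Function.iterate_succ_apply' (f := D) (n + 1) P]
    simp only [smul_eq_mul, mul_zero, add_zero, map_mul, map_add, map_one, Nat.cast_add, Nat.cast_one]
    ring

theorem iter_zero {N : ℕ} (D : Derivation ℂ (MvPolynomial (Fin N) ℂ) (MvPolynomial (Fin N) ℂ))
    (n : ℕ) : D^[n] (0 : MvPolynomial (Fin N) ℂ) = 0 := by
  induction n with
  | zero => rfl
  | succ n ih => rw [Function.iterate_succ_apply, map_zero, ih]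

theorem kill {N : ℕ} (D : Derivation ℂ (MvPolynomial (Fin N) ℂ) (MvPolynomial (Fin N) ℂ))
    {ι : Type*} [DecidableEq ι] (s : Finset ι) (H : ι → MvPolynomial (Fin N) ℂ) (c : ι → ℂ)
    (hH : ∀ k, D (H k) = C (c k)) (n : ℕ) (hn : (s.filter (fun k => c k ≠ 0)).card + 1 ≤ n) :
    D^[n] (∏ k ∈ s, H k) = 0 := by
  induction s using Finset.induction_on generalizing n with
  | empty =>
    obtain ⟨m, rfl⟩ : ∃ m, n = m + 1 := ⟨n - 1, by omega⟩
    rw [Function.iterate_succ_apply]
    simp [iter_zero]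
  | insert a s ha ih =>
    obtain ⟨m, rfl⟩ : ∃ m, n = m + 1 := ⟨n - 1, by omega⟩
    rw [Finset.prod_insert ha, leib D (hH a)]
    rw [Finset.filter_insert] at hn
    by_cases hc : c a = 0
    · rw [if_neg (by simp [hc])] at hn
      rw [ih (m + 1) hn, hc]; simp
    · rw [if_pos hc, Finset.card_insert_of_notMem (by simp [ha])] at hn
      rw [ih (m + 1) (by omega), ih m (by omega)]; simp

end

end Pool.Agent.TH732.FI
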