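import Pool.Agent.TH732.FI.Diff
import Pool.Agent.TH732.FI.Kill
import Pool.Agent.TH732.FI.Curve

namespace Pool.Agent.TH732.FI

open MvPolynomial

noncomputable section

/-- A linear form. -/
def lin (h : Fin 8 → ℂ) : MvPolynomial (Fin 8) ℂ := ∑ i, C (h i) * X i

theorem lin_hom (h : Fin 8 → ℂ) : (lin h).IsHomogeneous 1 := by
  unfold lin
  apply IsHomogeneous.sum
  intro i _
  have := (MvPolynomial.isHomogeneous_C (Fin 8) (h i)).mul (MvPolynomial.isHomogeneous_X ℂ i)
  simpa using this

theorem lin_aeval (h : Fin 8 → ℂ) (Cv : Fin 8 → Polynomial ℂ) :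
    aeval Cv (lin h) = ∑ i, Polynomial.C (h i) * Cv i := by
  simp [lin, map_sum]

theorem DD_lin (p h : Fin 8 → ℂ) : DD p (lin h) = C (∑ i, h i * p i) := by
  unfold lin
  rw [map_sum, map_sum]
  apply Finset.sum_congr rfl
  intro i _
  simp [Derivation.leibniz, DD_X]

theorem DD_smul {N : ℕ} (p : Fin N → ℂ) (c : ℂ) (F : MvPolynomial (Fin N) ℂ) :
    DD (fun i => c * p i) F = C c * DD p F := by
  have h : DD (fun i => c * p i) = (C c : MvPolynomial (Fin N) ℂ) • DD p := by
    apply MvPolynomial.derivation_ext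
    intro i
    simp [DD_X]
  rw [h]; simp

theorem DD_smul_iter {N : ℕ} (p : Fin N → ℂ) (c : ℂ) (F : MvPolynomial (Fin N) ℂ) (n : ℕ) :
    (DD (fun i => c * p i))^[n] F = C (c ^ n) * (DD p)^[n] F := by
  induction n with
  | zero => simp
  | succ n ih =>
    rw [Function.iterate_succ_apply', ih, DD_smul, Derivation.leibniz, MvPolynomial.derivation_C,
      ← Function.iterate_succ_apply' (f := DD p) n F]
    simp only [smul_eq_mul, mul_zero, add_zero]
    rw [← mul_assoc, ← map_mul, ← pow_succ']

/-- Order of vanishing along a curve. -/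
theorem lemB (p : Fin 8 → ℂ) (c u : ℂ) (Cv : Fin 8 → Polynomial ℂ)
    (hC : ∀ i, (Cv i).eval u = c * p i) {F : MvPolynomial (Fin 8) ℂ} {d a e : ℕ}
    (hF : F.IsHomogeneous d) (ha : (DD p)^[a] F = 0) (he : e = d + 1 - a) :
    (Polynomial.X - Polynomial.C u) ^ e ∣ aeval Cv F := by
  rw [he]
  have h1 : ∀ i, ∃ v, Cv i = Polynomial.C (c * p i) + (Polynomial.X - Polynomial.C u) * v := by
    intro i
    obtain ⟨v, hv⟩ := Polynomial.X_sub_C_dvd_sub_C_eval (a := u) (p := Cv i)
    refine ⟨v, ?_⟩
    rw [hC] at hv
    rw [← hv]; ring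
  choose v hv using h1
  have h2 : (DD (fun i => c * p i))^[a] F = 0 := by rw [DD_smul_iter, ha, mul_zero]
  have h3 := lemA (fun i => c * p i) hF h2 (Polynomial.X - Polynomial.C u) v
  have h4 : Cv = fun i => Polynomial.C (c * p i) + (Polynomial.X - Polynomial.C u) * v i :=
    funext hv
  rw [h4]; exact h3

theorem pow_part (D : Derivation ℂ (MvPolynomial (Fin 8) ℂ) (MvPolynomial (Fin 8) ℂ))
    {M G : MvPolynomial (Fin 8) ℂ} {μ : ℂ} (hM : D M = C μ) (hG : D G = 0) (n : ℕ) :
    D^[n] (M ^ n * G) = C ((n.factorial : ℂ) * μ ^ n) * G := by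
  induction n with
  | zero => simp
  | succ n ih =>
    have h1 : M ^ (n + 1) * G = M * (M ^ n * G) := by ring
    rw [h1, leib D hM, Function.iterate_succ_apply', ih, Derivation.leibniz, hG,
      MvPolynomial.derivation_C, ← mul_assoc, ← map_mul]
    simp only [smul_zero, add_zero, mul_zero, zero_add]
    congr 2
    rw [Nat.factorial_succ]; push_cast; ring

theorem card_count (j : Fin 9) :
    ((Finset.univ : Finset (Fin 9)).filter (fun k => ∀ l : Fin 5,
      k + Fin.castLE (by norm_num) l ≠ j)).card + 1 ≤ 5 := by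
  revert j; decide

def ff (u : Fin 10 → ℂ) (k : Fin 9) : Polynomial ℂ :=
  (Polynomial.X - Polynomial.C (u 9)) * ∏ l : Fin 5,
    (Polynomial.X - Polynomial.C (u (Fin.castSucc (k + Fin.castLE (by norm_num) l))))

theorem ff_deg (u : Fin 10 → ℂ) (k : Fin 9) : (ff u k).degree < 8 := by
  unfold ff
  rw [Polynomial.degree_mul, Polynomial.degree_prod]
  simp only [Polynomial.degree_X_sub_C, Finset.sum_const, Finset.card_univ, Fintype.card_fin]
  norm_num

theorem curve_arg (p : Fin 12 → Fin 8 → ℂ) (hp : CurveData p) :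
    ∃ G : MvPolynomial (Fin 8) ℂ, G.IsHomogeneous 9 ∧
      (∀ j : Fin 10, (DD (p (Fin.castLE (by norm_num) j)))^[5] G = 0) ∧
      ∀ F : MvPolynomial (Fin 8) ℂ, F.IsHomogeneous 14 → (DD (p 9))^[5] F = G →
        (∀ j : Fin 9, (DD (p (Fin.castLE (by norm_num) j)))^[5] F = 0) → False := by
  obtain ⟨Cv, u, c, hu, hc, hdeg, hev, hind⟩ := hp
  have hLin : ∀ f : Polynomial ℂ, f.degree < 8 → ∃ h : Fin 8 → ℂ,
      ∑ i, Polynomial.C (h i) * Cv i = f := by
    intro f hf
    obtain ⟨h, hh⟩ := hind (fun j => f.eval (u (Fin.castLE (by norm_num) j)) /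
      c (Fin.castLE (by norm_num) j))
    refine ⟨h, ?_⟩
    apply Polynomial.eq_of_degrees_lt_of_eval_index_eq (Finset.univ : Finset (Fin 8))
      (v := fun j => u (Fin.castLE (by norm_num) j))
    · intro a _ b _ hab
      have := hu hab
      simpa [Fin.ext_iff] using this
    · rw [Finset.card_univ, Fintype.card_fin]
      refine lt_of_le_of_lt (Polynomial.degree_sum_le _ _) ?_
      rw [Finset.sup_lt_iff (by exact WithBot.bot_lt_coe 8)]
      intro i _
      refine lt_of_le_of_lt ((Polynomial.degree_mul_le _ _).trans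
        (add_le_add_left Polynomial.degree_C_le _)) ?_
      rw [zero_add]; exact hdeg i
    · rw [Finset.card_univ, Fintype.card_fin]; exact hf
    · intro j _
      rw [Polynomial.eval_finsetSum]
      simp only [Polynomial.eval_mul, Polynomial.eval_C, hev]
      have h1 := hh j
      have h2 := hc (Fin.castLE (by norm_num) j)
      rw [eq_div_iff h2] at h1
      rw [← h1, Finset.sum_mul]
      apply Finset.sum_congr rfl
      intro i _
      have : (Fin.castLE (by norm_num) (Fin.castLE (by norm_num) j : Fin 10) : Fin 12) =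
        Fin.castLE (by norm_num) j := rfl
      rw [this]; ring
  have hval : ∀ (h : Fin 8 → ℂ) (f : Polynomial ℂ), ∑ i, Polynomial.C (h i) * Cv i = f →
      ∀ j : Fin 10, c j * ∑ i, h i * p (Fin.castLE (by norm_num) j) i = f.eval (u j) := by
    intro h f hf j
    rw [← hf, Polynomial.eval_finsetSum, Finset.mul_sum]
    simp only [Polynomial.eval_mul, Polynomial.eval_C, hev]
    apply Finset.sum_congr rfl
    intro i _
    ring
  choose hk hhk using fun k : Fin 9 => hLin (ff u k) (ff_deg u k)
  set G : MvPolynomial (Fin 8) ℂ := ∏ k : Fin 9, lin (hk k) with hG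
  have hGh : G.IsHomogeneous 9 := by
    have := MvPolynomial.IsHomogeneous.prod (Finset.univ : Finset (Fin 9)) (fun k => lin (hk k))
      (fun _ => 1) (fun k _ => lin_hom (hk k))
    simpa using this
  have hD9 : ∀ k, ∑ i, hk k i * p 9 i = 0 := by
    intro k
    have h1 := hval (hk k) (ff u k) (hhk k) 9
    have h2 : (ff u k).eval (u 9) = 0 := by simp [ff]
    rw [h2] at h1
    exact (mul_eq_zero.mp h1).resolve_left (hc 9)
  have hDj : ∀ (j k : Fin 9) (l : Fin 5), k + Fin.castLE (by norm_num) l = j →
      ∑ i, hk k i * p (Fin.castLE (by norm_num) j) i = 0 := by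
    intro j k l hl
    have h1 := hval (hk k) (ff u k) (hhk k) (Fin.castSucc j)
    have h2 : (ff u k).eval (u (Fin.castSucc j)) = 0 := by
      unfold ff
      rw [Polynomial.eval_mul, Polynomial.eval_prod, Finset.prod_eq_zero (i := l)]
      · ring
      · exact Finset.mem_univ _
      · rw [hl]; simp
    rw [h2] at h1
    exact (mul_eq_zero.mp h1).resolve_left (hc _)
  have hDG : DD (p 9) G = 0 := by
    have := kill (DD (p 9)) (Finset.univ : Finset (Fin 9)) (fun k => lin (hk k)) (fun _ => 0)
      (fun k => by rw [DD_lin, hD9]) 1 (by simp)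
    simpa using this
  refine ⟨G, hGh, ?_, ?_⟩
  · intro j
    by_cases hj : j.val < 9
    · have hjj : (Fin.castLE (by norm_num) j : Fin 12) =
          Fin.castLE (by norm_num) (⟨j.val, hj⟩ : Fin 9) := rfl
      rw [hjj]
      refine kill (DD _) (Finset.univ : Finset (Fin 9)) (fun k => lin (hk k))
        (fun k => ∑ i, hk k i * p (Fin.castLE (by norm_num) (⟨j.val, hj⟩ : Fin 9)) i)
        (fun k => DD_lin _ _) 5 ?_
      refine le_trans (Nat.add_le_add_right (Finset.card_le_card ?_) 1) (card_count ⟨j.val, hj⟩)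
      intro k hk'
      rw [Finset.mem_filter] at hk' ⊢
      refine ⟨hk'.1, ?_⟩
      intro l hl
      exact hk'.2 (hDj _ k l hl)
    · have hj9 : (Fin.castLE (by norm_num) j : Fin 12) = 9 := by
        apply Fin.ext
        have := j.isLt
        simp only [Fin.val_castLE]
        show j.val = 9
        omega
      rw [hj9, Function.iterate_succ_apply, hDG, iter_zero]
  · intro F hF hF9 hFj
    obtain ⟨m, hm⟩ := hLin 1 (by rw [Polynomial.degree_one]; exact_mod_cast (by norm_num : 0 < 8))
    have hμ : ∑ i, m i * p 9 i ≠ 0 := by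
      have h1 := hval m 1 hm 9
      intro h
      have h2 : (Fin.castLE (by norm_num) (9 : Fin 10) : Fin 12) = 9 := rfl
      rw [h2, h] at h1
      simp at h1
    set μ : ℂ := ∑ i, m i * p 9 i with hμd
    set lam : ℂ := (((5 : ℕ).factorial : ℂ) * μ ^ 5)⁻¹ with hlam
    have hne : (((5 : ℕ).factorial : ℂ) * μ ^ 5) ≠ 0 :=
      mul_ne_zero (by exact_mod_cast Nat.factorial_ne_zero 5) (pow_ne_zero _ hμ)
    have hlam0 : lam ≠ 0 := inv_ne_zero hne
    have h5 := pow_part (DD (p 9)) (DD_lin (p 9) m) hDG 5
    set F' : MvPolynomial (Fin 8) ℂ := F - C lam * (lin m ^ 5 * G) with hF'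
    have hF'h : F'.IsHomogeneous 14 := by
      have h6 := (((MvPolynomial.isHomogeneous_C (Fin 8) lam).mul
        (((lin_hom m).pow 5).mul hGh)))
      exact hF.sub (by simpa using h6)
    have iter_sub : ∀ (n : ℕ) (A B : MvPolynomial (Fin 8) ℂ),
        (DD (p 9))^[n] (A - B) = (DD (p 9))^[n] A - (DD (p 9))^[n] B := by
      intro n
      induction n with
      | zero => intro A B; rfl
      | succ n ih => intro A B; rw [Function.iterate_succ_apply, map_sub, ih]; rfl
    have iter_C : ∀ (n : ℕ) (a : ℂ) (B : MvPolynomial (Fin 8) ℂ),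
        (DD (p 9))^[n] (C a * B) = C a * (DD (p 9))^[n] B := by
      intro n
      induction n with
      | zero => intro A B; rfl
      | succ n ih =>
        intro a B
        rw [Function.iterate_succ_apply, Derivation.leibniz, MvPolynomial.derivation_C,
          smul_zero, add_zero, smul_eq_mul, ih]; rfl
    have hF'5 : (DD (p 9))^[5] F' = 0 := by
      rw [hF', iter_sub, iter_C, hF9, h5, ← mul_assoc, ← map_mul, hlam,
        inv_mul_cancel₀ hne, map_one, one_mul, sub_self]
    have hb : (Polynomial.X - Polynomial.C (u 9)) ^ 10 ∣ aeval Cv F' :=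
      lemB (p 9) (c 9) (u 9) Cv (hev 9) hF'h hF'5 (by norm_num)
    set E : Polynomial ℂ := aeval Cv F with hE
    have haG : aeval Cv G = ∏ k, ff u k := by
      rw [hG, map_prod]
      apply Finset.prod_congr rfl
      intro k _
      rw [lin_aeval, hhk]
    set Q : Polynomial ℂ := ∏ k : Fin 9, ∏ l : Fin 5,
      (Polynomial.X - Polynomial.C (u (Fin.castSucc (k + Fin.castLE (by norm_num) l)))) with hQ
    have haG2 : aeval Cv G = (Polynomial.X - Polynomial.C (u 9)) ^ 9 * Q := by
      rw [haG, hQ]
      unfold ff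
      rw [Finset.prod_mul_distrib]
      simp
    have hEe : E = aeval Cv F' + Polynomial.C lam * ((Polynomial.X - Polynomial.C (u 9)) ^ 9 * Q) := by
      have h7 : F = F' + C lam * (lin m ^ 5 * G) := by rw [hF']; ring
      rw [hE]
      conv_lhs => rw [h7]
      rw [map_add, map_mul, map_mul, map_pow, lin_aeval, hm, haG2]
      simp
    have hQ9 : Q.eval (u 9) ≠ 0 := by
      rw [hQ, Polynomial.eval_prod, Finset.prod_ne_zero_iff]
      intro k _
      rw [Polynomial.eval_prod, Finset.prod_ne_zero_iff]
      intro l _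
      rw [Polynomial.eval_sub, Polynomial.eval_X, Polynomial.eval_C, sub_ne_zero]
      intro h
      have h8 := hu h
      have h9 := (k + Fin.castLE (by norm_num) l : Fin 9).isLt
      have h10 := congrArg Fin.val h8
      simp only [Fin.val_castSucc] at h10
      have h11 : ((9 : Fin 10) : ℕ) = 9 := rfl
      omega
    have hE0 : E = 0 := by
      have hdv : (∏ j : Fin 10, (Polynomial.X - Polynomial.C (u j)) ^ (if j = 9 then 9 else 10)) ∣ E := by
        apply Finset.prod_dvd_of_coprime
        · intro i _ j _ hij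
          exact (Polynomial.pairwise_coprime_X_sub_C hu hij).pow
        · intro j _
          by_cases hj : j = 9
          · rw [if_pos hj, hj, hEe]
            apply dvd_add
            · exact (pow_dvd_pow _ (by norm_num)).trans hb
            · exact (dvd_mul_right _ _).trans (dvd_mul_left _ _)
          · rw [if_neg hj]
            have hj9 : j.val < 9 := by
              have := j.isLt
              have h12 : j.val ≠ 9 := fun h => hj (Fin.ext h)
              omega
            exact lemB (p (Fin.castLE (by norm_num) j)) (c j) (u j) Cv (hev j) hF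
              (hFj ⟨j.val, hj9⟩) (by norm_num)
      apply Polynomial.eq_zero_of_dvd_of_natDegree_lt hdv
      have h13 : E.natDegree ≤ 14 * 7 := by
        apply MvPolynomial.aeval_natDegree_le _ (hF.totalDegree_le)
        intro i
        have := hdeg i
        by_cases hz : Cv i = 0
        · rw [hz]; simp
        · rw [Polynomial.degree_eq_natDegree hz] at this
          have h14 : (Cv i).natDegree < 8 := by exact_mod_cast this
          omega
      have h15 : (∏ j : Fin 10, (Polynomial.X - Polynomial.C (u j)) ^ (if j = 9 then 9 else 10)).natDegree = 99 := by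
        rw [Polynomial.natDegree_prod_of_monic]
        · simp only [Polynomial.natDegree_pow, Polynomial.natDegree_X_sub_C]
          decide
        · intro i _
          exact (Polynomial.monic_X_sub_C _).pow _
      rw [h15]; omega
    rw [hE0] at hEe
    obtain ⟨R, hR⟩ := hb
    rw [hR] at hEe
    have hX : (Polynomial.X - Polynomial.C (u 9)) ^ 9 ≠ 0 :=
      pow_ne_zero _ (Polynomial.X_sub_C_ne_zero _)
    have h16 : (Polynomial.X - Polynomial.C (u 9)) * R + Polynomial.C lam * Q = 0 := by
      apply mul_left_cancel₀ hX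
      rw [mul_zero, hEe]; ring
    have h17 := congrArg (Polynomial.eval (u 9)) h16
    simp only [Polynomial.eval_add, Polynomial.eval_mul, Polynomial.eval_sub, Polynomial.eval_X,
      Polynomial.eval_C, sub_self, zero_mul, zero_add, Polynomial.eval_zero] at h17
    exact (mul_ne_zero hlam0 hQ9) h17

end

end Pool.Agent.TH732.FI
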