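import Mathlib

namespace Pool.Agent.TH732.FI

open MvPolynomial

noncomputable section

/-- Derivative in the direction `p`. -/
def DD {N : ℕ} (p : Fin N → ℂ) : Derivation ℂ (MvPolynomial (Fin N) ℂ) (MvPolynomial (Fin N) ℂ) :=
  MvPolynomial.mkDerivation ℂ (fun i => MvPolynomial.C (p i))

theorem DD_X {N : ℕ} (p : Fin N → ℂ) (i : Fin N) : DD p (X i) = C (p i) := by
  simp [DD, mkDerivation_X]

theorem DD_comm {N : ℕ} (p q : Fin N → ℂ) (F : MvPolynomial (Fin N) ℂ) :
    DD p (DD q F) = DD q (DD p F) := by
  have h : ⁅DD p, DD q⁆ = 0 := by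
    apply MvPolynomial.derivation_ext
    intro i
    rw [Derivation.commutator_apply]
    simp [DD_X]
  have := congrArg (fun D : Derivation ℂ _ _ => D F) h
  simp only [Derivation.commutator_apply, Derivation.coe_zero, Pi.zero_apply] at this
  exact sub_eq_zero.mp this

theorem DD_hom {N : ℕ} (p : Fin N → ℂ) {F : MvPolynomial (Fin N) ℂ} {d : ℕ}
    (hF : F.IsHomogeneous d) : (DD p F).IsHomogeneous (d - 1) := by
  have hs : ∀ (f : Fin N → Derivation ℂ (MvPolynomial (Fin N) ℂ) (MvPolynomial (Fin N) ℂ))
      (G : MvPolynomial (Fin N) ℂ), (∑ i, f i) G = ∑ i, f i G := by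
    intro f G
    have h1 := congrFun (map_sum (Derivation.coeFnAddMonoidHom (R := ℂ)
      (A := MvPolynomial (Fin N) ℂ) (M := MvPolynomial (Fin N) ℂ)) f Finset.univ) G
    rw [Finset.sum_apply] at h1
    exact h1
  have : DD p F = ∑ i, C (p i) * pderiv i F := by
    have h : DD p = ∑ i, (C (p i) : MvPolynomial (Fin N) ℂ) • (pderiv i : Derivation ℂ (MvPolynomial (Fin N) ℂ) (MvPolynomial (Fin N) ℂ)) := by
      apply MvPolynomial.derivation_ext
      intro j
      rw [DD_X, hs]
      simp [Pi.single_apply, pderiv_X]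
    rw [h, hs]
    simp
  rw [this]
  apply IsHomogeneous.sum
  intro i _
  have h1 := (MvPolynomial.isHomogeneous_C (Fin N) (p i)).mul (hF.pderiv (i := i))
  simpa using h1

theorem DD_iter_hom {N : ℕ} (p : Fin N → ℂ) {F : MvPolynomial (Fin N) ℂ} {d : ℕ}
    (hF : F.IsHomogeneous d) (k : ℕ) : ((DD p)^[k] F).IsHomogeneous (d - k) := by
  induction k with
  | zero => simpa using hF
  | succ k ih =>
    rw [Function.iterate_succ_apply']
    have := DD_hom p ih
    rwa [Nat.sub_sub] at this

/-- chain rule. -/
theorem chain {N : ℕ} (p : Fin N → ℂ) (w : Fin N → Polynomial ℂ) (F : MvPolynomial (Fin N) ℂ) :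
    Polynomial.derivative (aeval (fun i => (Polynomial.C (w i) +
      Polynomial.X * Polynomial.C (Polynomial.C (p i)) : Polynomial (Polynomial ℂ))) F) =
    aeval (fun i => (Polynomial.C (w i) +
      Polynomial.X * Polynomial.C (Polynomial.C (p i)) : Polynomial (Polynomial ℂ))) (DD p F) := by
  induction F using MvPolynomial.induction_on with
  | C a =>
    simp only [MvPolynomial.algHom_C, DD, MvPolynomial.derivation_C, map_zero]
    rw [IsScalarTower.algebraMap_apply ℂ (Polynomial ℂ) (Polynomial (Polynomial ℂ))]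
    simp
  | add F G hF hG => simp only [map_add, hF, hG]
  | mul_X F i hF =>
    rw [map_mul, Polynomial.derivative_mul, hF, Derivation.leibniz, map_add]
    simp only [DD_X, aeval_X, smul_eq_mul, map_mul, MvPolynomial.algHom_C]
    rw [IsScalarTower.algebraMap_apply ℂ (Polynomial ℂ) (Polynomial (Polynomial ℂ))]
    simp
    ring

theorem chain_iter {N : ℕ} (p : Fin N → ℂ) (w : Fin N → Polynomial ℂ) (k : ℕ)
    (F : MvPolynomial (Fin N) ℂ) :
    Polynomial.derivative^[k] (aeval (fun i => (Polynomial.C (w i) +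
      Polynomial.X * Polynomial.C (Polynomial.C (p i)) : Polynomial (Polynomial ℂ))) F) =
    aeval (fun i => (Polynomial.C (w i) +
      Polynomial.X * Polynomial.C (Polynomial.C (p i)) : Polynomial (Polynomial ℂ)))
      ((DD p)^[k] F) := by
  induction k generalizing F with
  | zero => rfl
  | succ k ih =>
    rw [Function.iterate_succ_apply, chain, ih, Function.iterate_succ_apply]

/-- scaling -/
theorem hom_scale {N : ℕ} {F : MvPolynomial (Fin N) ℂ} {d : ℕ}
    (hF : F.IsHomogeneous d) (τ : Polynomial ℂ) (v : Fin N → Polynomial ℂ) :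
    aeval (fun i => τ * v i) F = τ ^ d * aeval v F := by
  rw [aeval_def, aeval_def, eval₂_eq', eval₂_eq', Finset.mul_sum]
  apply Finset.sum_congr rfl
  intro m hm
  have h1 : ∑ i, m i = d := by
    have := hF (mem_support_iff.mp hm)
    rw [← this, Finsupp.weight_apply, Finsupp.sum_fintype]
    · simp
    · simp
  simp only [mul_pow, Finset.prod_mul_distrib]
  rw [Finset.prod_pow_eq_pow_sum, h1]
  ring

/-- Lemma A. -/
theorem lemA {N : ℕ} (p : Fin N → ℂ) {F : MvPolynomial (Fin N) ℂ} {d a : ℕ}
    (hF : F.IsHomogeneous d) (ha : (DD p)^[a] F = 0)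
    (τ : Polynomial ℂ) (v : Fin N → Polynomial ℂ) :
    τ ^ (d + 1 - a) ∣ aeval (fun i => Polynomial.C (p i) + τ * v i) F := by
  set w : Fin N → Polynomial ℂ := fun i => τ * v i with hw
  set g : Polynomial (Polynomial ℂ) := aeval (fun i => (Polynomial.C (w i) +
      Polynomial.X * Polynomial.C (Polynomial.C (p i)) : Polynomial (Polynomial ℂ))) F with hg
  -- evaluation at one
  have he : aeval (fun i => Polynomial.C (p i) + τ * v i) F = Polynomial.eval 1 g := by
    have h1 : Polynomial.eval 1 g =
        ((Polynomial.aeval (1 : Polynomial ℂ)).restrictScalars ℂ) g := by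
      simp [Polynomial.aeval_def]
    rw [h1, hg, ← AlgHom.comp_apply]
    congr 1
    apply MvPolynomial.algHom_ext
    intro i
    simp [hw, add_comm]
  rw [he, Polynomial.eval_eq_sum_range]
  apply Finset.dvd_sum
  intro k _
  rw [one_pow, mul_one]
  by_cases hk : k < a
  · have h1 : (Polynomial.derivative^[k] g).coeff 0 = (k.factorial : Polynomial ℂ) * g.coeff k := by
      rw [Polynomial.coeff_iterate_derivative]
      simp [Nat.descFactorial_self]
    have h2 : (Polynomial.derivative^[k] g).coeff 0 = τ ^ (d - k) * aeval v ((DD p)^[k] F) := by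
      rw [hg, chain_iter, ← hom_scale (DD_iter_hom p hF k), Polynomial.coeff_zero_eq_eval_zero]
      have h3 : ∀ q : Polynomial (Polynomial ℂ), Polynomial.eval 0 q =
        ((Polynomial.aeval (0 : Polynomial ℂ)).restrictScalars ℂ) q := by
        intro q; simp [Polynomial.aeval_def, Polynomial.coeff_zero_eq_eval_zero]
      rw [h3, ← AlgHom.comp_apply]
      congr 1
      apply MvPolynomial.algHom_ext
      intro i
      simp [hw]
    have h4 : g.coeff k = τ ^ (d - k) * (Polynomial.C ((k.factorial : ℂ)⁻¹) * aeval v ((DD p)^[k] F)) := by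
      have hne : (k.factorial : ℂ) ≠ 0 := by exact_mod_cast k.factorial_ne_zero
      have h5 : (k.factorial : Polynomial ℂ) = Polynomial.C (k.factorial : ℂ) := by simp
      have h6 : Polynomial.C ((k.factorial : ℂ)⁻¹) * ((k.factorial : Polynomial ℂ) * g.coeff k) =
          g.coeff k := by
        rw [h5, ← mul_assoc, ← Polynomial.C_mul, inv_mul_cancel₀ hne]; simp
      rw [← h6, ← h1, h2]; ring
    rw [h4]
    exact (pow_dvd_pow τ (by omega)).trans (dvd_mul_right _ _)
  · have h1 : (Polynomial.derivative^[a] g).coeff (k - a) = 0 := by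
      rw [hg, chain_iter, ha]; simp
    rw [Polynomial.coeff_iterate_derivative] at h1
    have h2 : k - a + a = k := by omega
    rw [h2] at h1
    have h3 : g.coeff k = 0 := by
      rcases smul_eq_zero.mp h1 with h | h
      · exact absurd h (by
          rw [Nat.descFactorial_eq_zero_iff_lt]; omega)
      · exact h
    rw [h3]; exact dvd_zero _

end

end Pool.Agent.TH732.FI
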