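import Mathlib

namespace Pool.Agent.TH732.FI

open MvPolynomial

noncomputable section

theorem finS (N d : ℕ) : Module.Finite ℂ (homogeneousSubmodule (Fin N) ℂ d) :=
  Module.Finite.iff_fg.mpr (homogeneousSubmodule_fg (Fin N) ℂ d)

theorem finrank_hom (N d : ℕ) :
    Module.finrank ℂ (homogeneousSubmodule (Fin N) ℂ d) = (N + d - 1).choose d := by
  rw [homogeneousSubmodule_eq_finsupp_supported]
  let e : Sym (Fin N) d ≃ {m : Fin N →₀ ℕ | m.degree = d} :=
    (Sym.equivNatSum (Fin N) d).trans (Equiv.subtypeEquivRight (by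
      intro m
      simp [Finsupp.degree_eq_sum, Finsupp.sum_fintype]))
  rw [(AddMonoidAlgebra.supportedEquivFinsupp (R := ℂ) (S := ℂ)
    {m : Fin N →₀ ℕ | m.degree = d}).finrank_eq]
  haveI : Fintype {m : Fin N →₀ ℕ | m.degree = d} := Fintype.ofEquiv _ e
  rw [Module.finrank_finsupp_self, ← Fintype.card_congr e, Sym.card_sym_eq_choose]
  simp

end

end Pool.Agent.TH732.FI
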