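import Pool.Agent.TH732.FI.Diff
import Pool.Agent.TH732.FI.Dim
import Pool.Agent.TH732.FI.Kill

namespace Pool.Agent.TH732.FI

open MvPolynomial

noncomputable section

abbrev Sd (d : ℕ) : Submodule ℂ (MvPolynomial (Fin 8) ℂ) := homogeneousSubmodule (Fin 8) ℂ d

instance (d : ℕ) : Module.Finite ℂ (Sd d) := finS 8 d

/-- Fifth directional derivative between spaces of forms. -/
def D5 (p : Fin 8 → ℂ) (d : ℕ) : Sd (d + 5) →ₗ[ℂ] Sd d :=
  (((DD p).toLinearMap) ^ 5).restrict (fun F hF => by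
    have h := DD_iter_hom p (show F.IsHomogeneous (d + 5) from hF) 5
    rw [Nat.add_sub_cancel] at h
    rw [Module.End.pow_apply]
    exact h)

theorem D5_val (p : Fin 8 → ℂ) (d : ℕ) (F : Sd (d + 5)) :
    ((D5 p d F : Sd d) : MvPolynomial (Fin 8) ℂ) = (DD p)^[5] F := by
  unfold D5
  rw [LinearMap.coe_restrict_apply, Module.End.pow_apply]
  rfl

theorem DD_comm_iter (p q : Fin 8 → ℂ) (F : MvPolynomial (Fin 8) ℂ) (n m : ℕ) :
    (DD p)^[n] ((DD q)^[m] F) = (DD q)^[m] ((DD p)^[n] F) := by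
  have h : Function.Commute (DD p) (DD q) := fun F => DD_comm p q F
  exact (h.iterate_iterate n m) F

/-- `Θ`. -/
def Th (p : Fin 12 → Fin 8 → ℂ) (d : ℕ) : Sd (d + 5) →ₗ[ℂ] (Fin 12 → Sd d) :=
  LinearMap.pi (fun i => D5 (p i) d)

abbrev Pr := {x : Fin 12 × Fin 12 // x.1 < x.2}

theorem card_Pr : Fintype.card Pr = 66 := by decide +kernel

/-- `Ψ`. -/
def Ps (p : Fin 12 → Fin 8 → ℂ) : (Fin 12 → Sd 9) →ₗ[ℂ] (Pr → Sd 4) :=
  LinearMap.pi (fun x => (D5 (p x.1.2) 4).comp (LinearMap.proj x.1.1) -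
    (D5 (p x.1.1) 4).comp (LinearMap.proj x.1.2))

theorem Ps_surj (p : Fin 12 → Fin 8 → ℂ) (h : Function.Surjective (Th p 4)) :
    Function.Surjective (Ps p) := by
  intro t
  choose G hG using fun i : Fin 12 => h (fun j => if hij : i < j then t ⟨(i, j), hij⟩ else 0)
  refine ⟨G, ?_⟩
  funext x
  obtain ⟨⟨i, j⟩, hij⟩ := x
  have h1 := congrFun (hG i) j
  have h2 := congrFun (hG j) i
  simp only [Th, LinearMap.pi_apply] at h1 h2
  rw [dif_pos hij] at h1
  rw [dif_neg (not_lt.mpr hij.le)] at h2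
  simp only [Ps, LinearMap.pi_apply, LinearMap.sub_apply, LinearMap.comp_apply, LinearMap.proj_apply]
  rw [h1, h2, sub_zero]

theorem range_le (p : Fin 12 → Fin 8 → ℂ) :
    LinearMap.range (Th p 9) ≤ LinearMap.ker (Ps p) := by
  rintro _ ⟨F, rfl⟩
  rw [LinearMap.mem_ker]
  funext x
  apply Subtype.ext
  simp only [Ps, Th, LinearMap.pi_apply, LinearMap.sub_apply, LinearMap.comp_apply,
    LinearMap.proj_apply, Pi.zero_apply, Submodule.coe_sub, Submodule.coe_zero, D5_val]
  rw [DD_comm_iter, sub_self]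

theorem finrank_pi12 (d : ℕ) : Module.finrank ℂ (Fin 12 → Sd d) = 12 * (8 + d - 1).choose d := by
  rw [Module.finrank_pi_fintype]
  simp [finrank_hom]

theorem finrank_piPr : Module.finrank ℂ (Pr → Sd 4) = 66 * 330 := by
  rw [Module.finrank_pi_fintype]
  simp only [finrank_hom, Finset.sum_const, Finset.card_univ, card_Pr]
  decide

theorem Th_surj (p : Fin 12 → Fin 8 → ℂ)
    (h1 : Module.finrank ℂ (LinearMap.ker (Th p 4)) ≤ 7480) : Function.Surjective (Th p 4) := by
  have c9 : (8 + 9 - 1).choose 9 = 11440 := by decide +kernel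
  have c4 : (8 + 4 - 1).choose 4 = 330 := by decide +kernel
  have f9 : Module.finrank ℂ (Sd (4 + 5)) = 11440 := by
    rw [finrank_hom]; exact c9
  have t4 : Module.finrank ℂ (Fin 12 → Sd 4) = 3960 := by
    rw [finrank_pi12, c4]
  have hT := LinearMap.finrank_range_add_finrank_ker (Th p 4)
  have hTle := Submodule.finrank_le (LinearMap.range (Th p 4))
  rw [← LinearMap.range_eq_top]
  apply Submodule.eq_top_of_finrank_eq
  omega

/-- The main linear algebra statement. -/
theorem main_lin (p : Fin 12 → Fin 8 → ℂ)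
    (h1 : Module.finrank ℂ (LinearMap.ker (Th p 4)) ≤ 7480)
    (G : Fin 12 → Sd 9) (hG : G ∈ LinearMap.ker (Ps p)) (hG2 : G ∉ LinearMap.range (Th p 9)) :
    781 ≤ Module.finrank ℂ (LinearMap.ker (Th p 9)) := by
  have c9 : (8 + 9 - 1).choose 9 = 11440 := by decide +kernel
  have c4 : (8 + 4 - 1).choose 4 = 330 := by decide +kernel
  have c14 : (8 + 14 - 1).choose 14 = 116280 := by decide +kernel
  have f9 : Module.finrank ℂ (Sd (4 + 5)) = 11440 := by
    rw [finrank_hom]; exact c9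
  have f14 : Module.finrank ℂ (Sd (9 + 5)) = 116280 := by
    rw [finrank_hom]; exact c14
  have t4 : Module.finrank ℂ (Fin 12 → Sd 4) = 3960 := by
    rw [finrank_pi12, c4]
  have t9 : Module.finrank ℂ (Fin 12 → Sd 9) = 137280 := by
    rw [finrank_pi12, c9]
  have hT := LinearMap.finrank_range_add_finrank_ker (Th p 4)
  have hTle := Submodule.finrank_le (LinearMap.range (Th p 4))
  have hTs : Function.Surjective (Th p 4) := by
    rw [← LinearMap.range_eq_top]
    apply Submodule.eq_top_of_finrank_eq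
    omega
  have hPs := Ps_surj p hTs
  have hk := LinearMap.finrank_range_add_finrank_ker (Ps p)
  rw [LinearMap.range_eq_top.mpr hPs, finrank_top, finrank_piPr, t9] at hk
  have hlt : LinearMap.range (Th p 9) < LinearMap.ker (Ps p) :=
    lt_of_le_of_ne (range_le p) (fun h => hG2 (h ▸ hG))
  have hlt2 := Submodule.finrank_lt_finrank_of_lt hlt
  have hr := LinearMap.finrank_range_add_finrank_ker (Th p 9)
  omega

end

end Pool.Agent.TH732.FI
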